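import Pool.Agent.H27.L1.H34.GZ.Defs

/-! # Elementary bounds for matrices, used by rows of the board gz_modules -/

set_option autoImplicit false

open MeasureTheory Pool.Agent.H27.L1.H34.GM Pool.Agent.H27.L1.H34.GZ

namespace Pool.Agent.H27.L1.H19.GZ

lemma abs_le_sz {m : ℕ} (z : Mat m) (i j : Fin m) : |z i j| ≤ sz z := by
  unfold sz
  have h1 := norm_le_pi_norm ((fun i j => z i j) : V m) i
  have h2 := norm_le_pi_norm ((fun j => z i j) : Fin m → ℝ) j
  simpa using h2.trans h1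

lemma sz_le {m : ℕ} (z : Mat m) {c : ℝ} (hc : 0 ≤ c) (h : ∀ i j, |z i j| ≤ c) : sz z ≤ c := by
  unfold sz
  rw [pi_norm_le_iff_of_nonneg hc]
  intro i
  rw [pi_norm_le_iff_of_nonneg hc]
  intro j
  exact h i j

lemma sz_nonneg {m : ℕ} (z : Mat m) : 0 ≤ sz z := norm_nonneg _

lemma det_bd {m : ℕ} (A : Mat m) {x : ℝ} (h : ∀ i j, |A i j| ≤ x) :
    |A.det| ≤ (m.factorial : ℝ) * x ^ m := by
  have h1 := Matrix.det_le (A := A) (abv := (AbsoluteValue.abs : AbsoluteValue ℝ ℝ)) (x := x) h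
  rw [Fintype.card_fin, nsmul_eq_mul] at h1
  exact h1

lemma adj_bd {m : ℕ} (A : Mat m) {x : ℝ} (hx : 1 ≤ x) (h : ∀ i j, |A i j| ≤ x) (i j : Fin m) :
    |A.adjugate i j| ≤ (m.factorial : ℝ) * x ^ m := by
  rw [Matrix.adjugate_apply]
  apply det_bd
  intro s t
  rw [Matrix.updateRow_apply]
  split_ifs with h1
  · rw [Pi.single_apply]
    split_ifs
    · simpa using hx
    · simpa using (by linarith : (0 : ℝ) ≤ x)
  · exact h s t

lemma mul_bd {m : ℕ} (A B : Mat m) {x y : ℝ} (hx : 0 ≤ x) (hA : ∀ i j, |A i j| ≤ x)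
    (hB : ∀ i j, |B i j| ≤ y) (i j : Fin m) : |(A * B) i j| ≤ m * (x * y) := by
  rw [Matrix.mul_apply]
  calc |∑ l, A i l * B l j| ≤ ∑ l, |A i l * B l j| := Finset.abs_sum_le_sum_abs _ _
    _ ≤ ∑ _l : Fin m, x * y := by
        apply Finset.sum_le_sum
        intro l _
        rw [abs_mul]
        exact mul_le_mul (hA i l) (hB l j) (abs_nonneg _) hx
    _ = m * (x * y) := by
        rw [Finset.sum_const, Finset.card_univ, Fintype.card_fin, nsmul_eq_mul]

lemma rowN_nonneg {m : ℕ} (v : Fin m → ℝ) : 0 ≤ rowN v := Real.sqrt_nonneg _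

lemma abs_le_rowN {m : ℕ} (v : Fin m → ℝ) (i : Fin m) : |v i| ≤ rowN v := by
  unfold rowN
  rw [← Real.sqrt_sq_eq_abs]
  apply Real.sqrt_le_sqrt
  exact Finset.single_le_sum (f := fun i => v i ^ 2) (fun j _ => sq_nonneg _) (Finset.mem_univ i)

lemma rowN_le {m : ℕ} (v : Fin m → ℝ) {M : ℝ} (hM : 0 ≤ M) (h : ∀ i, |v i| ≤ M) :
    rowN v ≤ m * M := by
  unfold rowN
  apply Real.sqrt_le_iff.mpr
  refine ⟨by positivity, ?_⟩
  calc ∑ i, v i ^ 2 ≤ ∑ _i : Fin m, M ^ 2 := by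
        apply Finset.sum_le_sum
        intro i _
        exact sq_le_sq' (by have := abs_le.mp (h i); linarith [this.1])
          (by have := abs_le.mp (h i); linarith [this.2])
    _ = m * M ^ 2 := by rw [Finset.sum_const, Finset.card_univ, Fintype.card_fin, nsmul_eq_mul]
    _ ≤ (m * M) ^ 2 := by
        rcases Nat.eq_zero_or_pos m with h0 | h0
        · subst h0; simp
        · have : (1 : ℝ) ≤ m := by exact_mod_cast h0
          nlinarith [sq_nonneg M, mul_nonneg (sub_nonneg.mpr this) (sq_nonneg M),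
            mul_nonneg (mul_nonneg (sub_nonneg.mpr this) (by linarith : (0 : ℝ) ≤ m)) (sq_nonneg M)]

lemma rowN_smul {m : ℕ} (t : ℝ) (v : Fin m → ℝ) : rowN (t • v) = |t| * rowN v := by
  unfold rowN
  have h1 : ∑ i, (t • v) i ^ 2 = t ^ 2 * ∑ i, v i ^ 2 := by
    rw [Finset.mul_sum]
    apply Finset.sum_congr rfl
    intro i _
    simp only [Pi.smul_apply, smul_eq_mul]
    ring
  rw [h1, Real.sqrt_mul (sq_nonneg t), Real.sqrt_sq_eq_abs]

lemma rowN_vecMul {m : ℕ} (v : Fin m → ℝ) (W : Mat m) {w : ℝ} (hw : 0 ≤ w)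
    (hW : ∀ i j, |W i j| ≤ w) : rowN (Matrix.vecMul v W) ≤ m * (m * w) * rowN v := by
  have h0 := rowN_nonneg v
  have h1 : ∀ j, |Matrix.vecMul v W j| ≤ m * w * rowN v := by
    intro j
    have h2 : Matrix.vecMul v W j = ∑ i, v i * W i j := rfl
    rw [h2]
    calc |∑ i, v i * W i j| ≤ ∑ i, |v i * W i j| := Finset.abs_sum_le_sum_abs _ _
      _ ≤ ∑ _i : Fin m, w * rowN v := by
          apply Finset.sum_le_sum
          intro i _
          rw [abs_mul, mul_comm]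
          exact mul_le_mul (hW i j) (abs_le_rowN v i) (abs_nonneg _) hw
      _ = m * (w * rowN v) := by
          rw [Finset.sum_const, Finset.card_univ, Fintype.card_fin, nsmul_eq_mul]
      _ = m * w * rowN v := by ring
  have h3 := rowN_le _ (by positivity) h1
  linarith

lemma aN_pow {m : ℕ} (hm : 1 ≤ m) (z : Mat m) : aN z ^ m = |z.det| := by
  unfold aN
  rw [one_div]
  exact Real.rpow_inv_natCast_pow (abs_nonneg _) (by omega)

lemma aN_nonneg {m : ℕ} (z : Mat m) : 0 ≤ aN z := Real.rpow_nonneg (abs_nonneg _) _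

lemma aN_pos {m : ℕ} (z : Mat m) (hz : z.det ≠ 0) : 0 < aN z :=
  Real.rpow_pos_of_pos (abs_pos.mpr hz) _

lemma kk_apply {m : ℕ} (r : ℝ) (h α g : Mat m) :
    kk r h α g = (r⁻¹ * aN h / aN g) • (h⁻¹ * α * g) := rfl

end Pool.Agent.H27.L1.H19.GZ
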