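import Pool.Agent.H27.L1.H16.GZ.Targets4
import Pool.Agent.H27.L1.H19.GZ.LBas

/-! # Row CUB of the board gz_modules: conjugates of the unipotent matrices -/

set_option autoImplicit false

open MeasureTheory Pool.Agent.H27.L1.H34.GM Pool.Agent.H27.L1.H34.GZ

namespace Pool.Agent.H27.L1.H19.GZ

lemma orth_entry {m : ℕ} (k : Mat m) (hk : k * k.transpose = 1) (s p : Fin m) : |k s p| ≤ 1 := by
  have h1 : (k * k.transpose) s s = 1 := by rw [hk, Matrix.one_apply_eq]
  rw [Matrix.mul_apply] at h1
  have h2 : k s p ^ 2 ≤ ∑ l, k s l * k.transpose l s := by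
    have h3 : ∑ l, k s l * k.transpose l s = ∑ l, k s l ^ 2 := by
      apply Finset.sum_congr rfl
      intro l _
      rw [Matrix.transpose_apply, sq]
    rw [h3]
    exact Finset.single_le_sum (f := fun l => k s l ^ 2) (fun j _ => sq_nonneg _)
      (Finset.mem_univ p)
  rw [h1] at h2
  exact (sq_le_one_iff_abs_le_one _).mp h2

theorem pf_CUB : T_CUB := by
  intro m
  obtain ⟨Y, hY⟩ : ∃ Y : ℝ, Y = (m : ℝ) * (m * ((m.factorial : ℝ) * 1 ^ m * 1) * 1) := ⟨_, rfl⟩
  have hY0 : 0 ≤ Y := by rw [hY]; positivity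
  refine ⟨m * (1 * (m * (4 ^ m * Y * 1))) + 1, by positivity, ?_⟩
  intro q b n a k hS i j hij u hu
  have hn1 := hS.one
  have hnd : n.det = 1 := by
    rw [Matrix.det_of_isLowerTriangular (M := n)]
    · simp [hn1]
    · intro s t hst
      exact hS.up s t hst
  have hkd : k.det ≠ 0 := by
    intro h0
    have h1 := congrArg Matrix.det hS.orth
    rw [Matrix.det_mul, Matrix.det_transpose, h0, Matrix.det_one] at h1
    simp at h1
  have had : (Matrix.diagonal a).det ≠ 0 := by
    rw [Matrix.det_diagonal]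
    exact (Finset.prod_pos fun i _ => hS.pos i).ne'
  have hbd : b.det ≠ 0 := by
    rw [hS.eq, Matrix.det_mul, Matrix.det_mul, hnd, one_mul]
    exact mul_ne_zero had hkd
  have hbu : IsUnit b.det := isUnit_iff_ne_zero.mpr hbd
  have hbi : b * b⁻¹ = 1 := Matrix.mul_nonsing_inv b hbu
  have hib : b⁻¹ * b = 1 := Matrix.nonsing_inv_mul b hbu
  have hu01 : ∀ s t, 0 ≤ u s t ∧ u s t ≤ 1 := fun s t => ⟨hu.1 s t, hu.2 s t⟩
  obtain ⟨N, hN⟩ : ∃ N : Mat m, N = nk (j : ℕ) u := ⟨_, rfl⟩
  rw [← hN]
  have hNe : ∀ s t, N s t = if (t : ℕ) < j ∧ (j : ℕ) ≤ s then u s t else 0 := by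
    intro s t
    rw [hN]
    rfl
  have hN1 : ∀ s t, |N s t| ≤ 1 := by
    intro s t
    rw [hNe]
    split_ifs
    · rw [abs_of_nonneg (hu01 s t).1]
      exact (hu01 s t).2
    · simp
  refine ⟨?_, ?_, ?_⟩
  · rw [← Matrix.mul_assoc, ← Matrix.mul_assoc, hbi, Matrix.one_mul]
  · rw [Matrix.det_mul, Matrix.det_mul, Matrix.det_nonsing_inv, Ring.inverse_eq_inv']
    have h1 : (1 + (q : ℝ) • N).det = 1 := by
      rw [Matrix.det_of_isLowerTriangular (M := 1 + (q : ℝ) • N)]
      · apply Finset.prod_eq_one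
        intro s _
        rw [Matrix.add_apply, Matrix.one_apply_eq, Matrix.smul_apply, hNe, if_neg (by omega)]
        simp
      · intro s t hst
        have hst' : s < t := hst
        rw [Matrix.add_apply, Matrix.one_apply_ne hst'.ne, Matrix.smul_apply, hNe,
          if_neg (by intro h; have := h.1; have := h.2; have : (s : ℕ) < t := hst'; omega)]
        simp
    rw [h1, mul_one, inv_mul_cancel₀ hbd]
  · -- the bound
    have e1 : b⁻¹ * (1 + (q : ℝ) • N) * b - 1 = (q : ℝ) • (b⁻¹ * N * b) := by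
      rw [Matrix.mul_add, Matrix.add_mul, Matrix.mul_one, hib, Matrix.mul_smul, Matrix.smul_mul,
        add_sub_cancel_left]
    have hai : (Matrix.diagonal a)⁻¹ = Matrix.diagonal (fun i => (a i)⁻¹) := by
      apply Matrix.inv_eq_right_inv
      rw [Matrix.diagonal_mul_diagonal]
      have : (fun i => a i * (a i)⁻¹) = fun _ => (1 : ℝ) := by
        funext s
        exact mul_inv_cancel₀ (hS.pos s).ne'
      rw [this, Matrix.diagonal_one]
    have hki : k⁻¹ = k.transpose := Matrix.inv_eq_right_inv hS.orth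
    have e2 : b⁻¹ * N * b = k.transpose * (Matrix.diagonal (fun i => (a i)⁻¹) * (n⁻¹ * N * n) *
        Matrix.diagonal a) * k := by
      rw [hS.eq, Matrix.mul_inv_rev, Matrix.mul_inv_rev, hai, hki]
      simp only [Matrix.mul_assoc]
    -- entries of n and of its inverse
    have hn : ∀ s t, |n s t| ≤ 1 := by
      intro s t
      rcases lt_trichotomy s t with h | h | h
      · rw [hS.up s t h]; simp
      · rw [h, hn1]; simp
      · exact (hS.lo s t h).trans (by norm_num)
    have hni : ∀ s t, |n⁻¹ s t| ≤ (m.factorial : ℝ) * 1 ^ m := by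
      intro s t
      rw [Matrix.inv_def, hnd, Ring.inverse_one, one_smul]
      exact adj_bd n le_rfl hn s t
    have hnl : ∀ s t, s < t → n⁻¹ s t = 0 := by
      let _ : Invertible n := Matrix.invertibleOfIsUnitDet n (by rw [hnd]; exact isUnit_one)
      have h1 : Matrix.BlockTriangular n (OrderDual.toDual : Fin m → (Fin m)ᵒᵈ) := by
        intro s t hst
        exact hS.up s t hst
      intro s t hst
      exact Matrix.blockTriangular_inv_of_blockTriangular h1 hst
    obtain ⟨X, hX⟩ : ∃ X, X = n⁻¹ * N * n := ⟨_, rfl⟩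
    have hXb : ∀ s t, |X s t| ≤ Y := by
      intro s t
      rw [hX, hY]
      have h1 : ∀ s t, |(n⁻¹ * N) s t| ≤ m * ((m.factorial : ℝ) * 1 ^ m * 1) :=
        mul_bd n⁻¹ N (by positivity) hni hN1
      exact mul_bd (n⁻¹ * N) n (by positivity) h1 hn s t
    have hX0 : ∀ s t : Fin m, ¬ ((j : ℕ) ≤ s ∧ (t : ℕ) < j) → X s t = 0 := by
      intro s t hst
      rw [hX, Matrix.mul_apply]
      apply Finset.sum_eq_zero
      intro l _
      by_cases hl : l < t
      · rw [hS.up l t hl, mul_zero]
      · rw [Matrix.mul_apply, Finset.sum_mul]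
        apply Finset.sum_eq_zero
        intro r _
        by_cases hr : s < r
        · rw [hnl s r hr, zero_mul, zero_mul]
        · rw [hNe]
          have : ¬ ((l : ℕ) < j ∧ (j : ℕ) ≤ r) := by
            rintro ⟨c1, c2⟩
            apply hst
            have c3 : (t : ℕ) ≤ l := by
              have := not_lt.mp hl
              exact this
            have c4 : (r : ℕ) ≤ s := not_lt.mp hr
            omega
          rw [if_neg this, mul_zero, zero_mul]
    have hai0 := hS.pos i
    have haj0 := hS.pos j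
    have haij : 0 < a i / a j := div_pos hai0 haj0
    have hD : ∀ s t, |(Matrix.diagonal (fun i => (a i)⁻¹) * X * Matrix.diagonal a) s t| ≤
        4 ^ m * Y * 1 * (a i / a j) := by
      intro s t
      rw [Matrix.mul_diagonal, Matrix.diagonal_mul]
      by_cases hst : (j : ℕ) ≤ s ∧ (t : ℕ) < j
      · have h1 : a j ≤ 2 ^ m * a s := hS.ord j s hst.1
        have h2 : a t ≤ 2 ^ m * a i := hS.ord t i (by
          have : (t : ℕ) ≤ i := by omega
          exact this)
        have hs := hS.pos s
        have ht := hS.pos t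
        have hj := hS.pos j
        rw [abs_mul, abs_mul, abs_of_pos ht, abs_of_pos (inv_pos.mpr hs)]
        have h3 : (a s)⁻¹ ≤ 2 ^ m * (a j)⁻¹ := by
          rw [inv_eq_one_div, inv_eq_one_div, div_le_iff₀ hs]
          have : 2 ^ m * (1 / a j) * a s = (2 ^ m * a s) / a j := by ring
          rw [this, le_div_iff₀ hj, one_mul]
          exact h1
        calc (a s)⁻¹ * |X s t| * a t ≤ (2 ^ m * (a j)⁻¹) * Y * (2 ^ m * a i) := by
              apply mul_le_mul _ h2 ht.le (by positivity)
              exact mul_le_mul h3 (hXb s t) (abs_nonneg _) (by positivity)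
          _ = 4 ^ m * Y * 1 * (a i / a j) := by
              have : (4 : ℝ) ^ m = 2 ^ m * 2 ^ m := by
                rw [← mul_pow]
                norm_num
              rw [this]
              ring
      · rw [hX0 s t hst, mul_zero, zero_mul, abs_zero]
        positivity
    have hkb : ∀ s t, |k s t| ≤ 1 := orth_entry k hS.orth
    have hktb : ∀ s t, |k.transpose s t| ≤ 1 := fun s t => hkb t s
    rw [e1, e2, ← hX]
    have h5 : ∀ s t, |(k.transpose * (Matrix.diagonal (fun i => (a i)⁻¹) * X *
        Matrix.diagonal a)) s t| ≤ m * (1 * (4 ^ m * Y * 1 * (a i / a j))) :=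
      mul_bd _ _ zero_le_one hktb hD
    have h6 := mul_bd (k.transpose * (Matrix.diagonal (fun i => (a i)⁻¹) * X *
        Matrix.diagonal a)) k (by positivity) h5 hkb
    have hq0 : (0 : ℝ) ≤ q := Nat.cast_nonneg q
    apply sz_le _ (by positivity)
    intro s t
    rw [Matrix.smul_apply, smul_eq_mul, abs_mul, abs_of_nonneg hq0]
    calc (q : ℝ) * |(k.transpose * (Matrix.diagonal (fun i => (a i)⁻¹) * X *
          Matrix.diagonal a) * k) s t|
        ≤ q * (m * (m * (1 * (4 ^ m * Y * 1 * (a i / a j))) * 1)) :=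
          mul_le_mul_of_nonneg_left (h6 s t) hq0
      _ = (m * (1 * (m * (4 ^ m * Y * 1)))) * (q * a i / a j) := by ring
      _ ≤ (m * (1 * (m * (4 ^ m * Y * 1))) + 1) * (q * a i / a j) := by
          apply mul_le_mul_of_nonneg_right (by linarith)
          positivity

end Pool.Agent.H27.L1.H19.GZ
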